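import Pool.Agent.P.MP_ecb9b3_al.Main

/-! In a small soluble variety of groups every finitely generated group has the Hopf property. -/

namespace Pool.Agent.Results.MP_ecb9b3_al.Hopfian

open Pool.Agent.P.MP_ecb9b3_al

theorem result (L : Set (FreeGroup ℕ)) (hsol : Soluble L)
    (hsmall : Pool.Agent.P.MP_ecb9b3_al.Small L)
    (G : Type) [Group G] (hfg : Group.FG G) (hG : InV L G)
    (φ : G →* G) (hφ : Function.Surjective φ) : Function.Injective φ := by
  obtain ⟨k, hk⟩ := hsol
  exact hopf_of_nc (nc_of_vm hsmall.few hfg hG (vm hsmall.few k G hfg hG (hk G hG))) φ hφ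

end Pool.Agent.Results.MP_ecb9b3_al.Hopfian
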